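import Pool.Agent.W192.CM.Parts

/-! CM-MOB (owner helper192): Möbius inversion in a residue class. -/

set_option autoImplicit false

open Finset

namespace Pool.Agent.W636.CM

open Pool.Agent.W192.CM

theorem sum_moebius_dvd (d a : ℕ) (hd : 0 < d) :
    ∑ r ∈ d.divisors, ((ArithmeticFunction.moebius r : ℤ) : ℂ) * (if r ∣ a then 1 else 0) =
      if Nat.Coprime a d then 1 else 0 := by
  have hg : 0 < Nat.gcd a d := Nat.gcd_pos_of_pos_right a hd
  have h1 : ∑ r ∈ (Nat.gcd a d).divisors, (ArithmeticFunction.moebius r : ℤ) =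
      if Nat.gcd a d = 1 then 1 else 0 := by
    rw [← ArithmeticFunction.coe_mul_zeta_apply, ArithmeticFunction.moebius_mul_coe_zeta,
      ArithmeticFunction.one_apply]
  have h2 : (d.divisors.filter (fun r => r ∣ a)) = (Nat.gcd a d).divisors := by
    ext r
    rw [mem_filter, Nat.mem_divisors, Nat.mem_divisors, Nat.dvd_gcd_iff]
    constructor
    · rintro ⟨⟨h3, _⟩, h4⟩
      exact ⟨⟨h4, h3⟩, hg.ne'⟩
    · rintro ⟨⟨h3, h4⟩, _⟩
      exact ⟨⟨h4, hd.ne'⟩, h3⟩
  simp only [mul_ite, mul_one, mul_zero]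
  rw [← sum_filter, h2, ← Int.cast_sum, h1]
  unfold Nat.Coprime
  split_ifs <;> simp

theorem c_mob : C_MOB := by
  classical
  intro A _ _ χ₀ M hM hMd
  obtain ⟨d, hd⟩ : ∃ d, d = orderOf χ₀ := ⟨_, rfl⟩
  have hd0 : 0 < d := hd ▸ orderOf_pos χ₀
  rw [← hd] at hMd ⊢
  have hmem : ∀ χ, χ ∈ Ef χ₀ M ↔ ∃ a : ℕ, Nat.Coprime a d ∧ a % M = 1 % M ∧ χ = χ₀ ^ a := by
    intro χ
    simp [Ef, hd]
  have hCg : ∀ e χ, χ ∈ Cf χ₀ e ↔ χ ∈ Subgroup.zpowers χ₀ ∧ χ ^ e = 1 := by
    intro e χ
    simp [Cf]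
  have hinj : ∀ a b, a < d → b < d → χ₀ ^ a = χ₀ ^ b → a = b := by
    intro a b ha hb hab
    rw [hd] at ha hb
    exact pow_injOn_Iio_orderOf ha hb hab
  -- the exponents
  have ht : ∀ r : ℕ, ∃ t : ℕ, Nat.Coprime r M → t ≡ 0 [MOD r] ∧ t ≡ 1 [MOD M] := by
    intro r
    by_cases h : Nat.Coprime r M
    · obtain ⟨k, hk⟩ := Nat.chineseRemainder h 0 1
      exact ⟨k, fun _ => hk⟩
    · exact ⟨0, fun h1 => absurd h1 h⟩
  choose t ht using ht
  refine ⟨t, ?_, ?_⟩
  · have : NeZero d := ⟨hd0.ne'⟩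
    have : NeZero M := ⟨by omega⟩
    have h1 : Nat.card (ZMod.unitsMap hMd).ker * Nat.card (ZMod M)ˣ = Nat.card (ZMod d)ˣ := by
      rw [← Subgroup.card_mul_index (ZMod.unitsMap hMd).ker, Subgroup.index_ker,
        MonoidHom.range_eq_top.2 (ZMod.unitsMap_surjective hMd), Subgroup.card_top]
    rw [Nat.card_eq_fintype_card (α := (ZMod M)ˣ), Nat.card_eq_fintype_card (α := (ZMod d)ˣ),
      ZMod.card_units_eq_totient, ZMod.card_units_eq_totient] at h1
    rw [← h1]
    congr 1
    rw [Nat.card_eq_fintype_card, ← Finset.card_univ]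
    symm
    refine Finset.card_bij (fun u _ => χ₀ ^ ((u : (ZMod d)ˣ) : ZMod d).val) ?_ ?_ ?_
    · rintro ⟨u, hu⟩ _
      rw [hmem]
      refine ⟨(u : ZMod d).val, ZMod.val_coe_unit_coprime u, ?_, rfl⟩
      rw [← ZMod.natCast_eq_natCast_iff']
      rw [MonoidHom.mem_ker] at hu
      have h2 := congrArg (fun z : (ZMod M)ˣ => (z : ZMod M)) hu
      simp only [ZMod.unitsMap_val, Units.val_one] at h2
      rw [Nat.cast_one, ← h2, ZMod.natCast_val]
    · rintro ⟨u, hu⟩ _ ⟨v, hv⟩ _ huv
      refine Subtype.ext (Units.ext ?_)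
      exact ZMod.val_injective d (hinj _ _ (ZMod.val_lt _) (ZMod.val_lt _) huv)
    · intro χ hχ
      obtain ⟨a, ha, haM, rfl⟩ := (hmem χ).1 hχ
      refine ⟨⟨ZMod.unitOfCoprime a ha, ?_⟩, mem_univ _, ?_⟩
      · rw [MonoidHom.mem_ker]
        refine Units.ext ?_
        rw [ZMod.unitsMap_val, ZMod.coe_unitOfCoprime, Units.val_one, ZMod.cast_natCast hMd,
          ← Nat.cast_one, ZMod.natCast_eq_natCast_iff']
        exact haM
      · simp only [ZMod.coe_unitOfCoprime, ZMod.val_natCast]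
        rw [hd, pow_mod_orderOf]
  · intro g
    -- sum over the residues
    have h1 : ∑ χ ∈ Ef χ₀ M, g χ =
        ∑ a ∈ (range d).filter (fun a => a % M = 1 % M), g (χ₀ ^ a) *
          (if Nat.Coprime a d then 1 else 0) := by
      simp only [mul_ite, mul_one, mul_zero]
      rw [← sum_filter]
      symm
      refine Finset.sum_bij (fun a _ => χ₀ ^ a) ?_ ?_ ?_ (fun _ _ => rfl)
      · intro a ha
        simp only [mem_filter, mem_range] at ha
        exact (hmem _).2 ⟨a, ha.2, ha.1.2, rfl⟩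
      · intro a ha b hb hab
        simp only [mem_filter, mem_range] at ha hb
        exact hinj a b ha.1.1 hb.1.1 hab
      · intro χ hχ
        obtain ⟨a, ha, haM, rfl⟩ := (hmem χ).1 hχ
        refine ⟨a % d, ?_, ?_⟩
        · simp only [mem_filter, mem_range]
          refine ⟨⟨Nat.mod_lt _ hd0, ?_⟩, ?_⟩
          · rw [Nat.mod_mod_of_dvd _ hMd]
            exact haM
          · unfold Nat.Coprime
            rw [← Nat.gcd_rec, Nat.gcd_comm] 
            exact ha
        · rw [hd, pow_mod_orderOf]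
    have h2 : ∀ a, g (χ₀ ^ a) * (if Nat.Coprime a d then 1 else 0) =
        ∑ r ∈ d.divisors, ((ArithmeticFunction.moebius r : ℤ) : ℂ) *
          (if r ∣ a then g (χ₀ ^ a) else 0) := by
      intro a
      rw [← sum_moebius_dvd d a hd0, mul_sum]
      refine sum_congr rfl fun r _ => ?_
      split_ifs <;> ring
    rw [h1, sum_congr rfl (fun a _ => h2 a), sum_comm, sum_filter]
    refine sum_congr rfl fun r hr => ?_
    have hrd : r ∣ d := (Nat.mem_divisors.1 hr).1
    have hr0 : 0 < r := Nat.pos_of_dvd_of_pos hrd hd0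
    rw [← mul_sum]
    by_cases hrM : Nat.Coprime r M
    · rw [if_pos hrM]
      congr 1
      obtain ⟨ht0, ht1⟩ := ht r hrM
      have hrMd : r * M ∣ d := Nat.Coprime.mul_dvd_of_dvd_of_dvd hrM hrd hMd
      obtain ⟨e, he⟩ := hrMd
      have hrM0 : 0 < r * M := Nat.mul_pos hr0 (by omega)
      have he' : d / (r * M) = e := by
        rw [he, Nat.mul_div_cancel_left _ hrM0]
      rw [he', ← sum_filter]
      refine Finset.sum_bij (fun a _ => χ₀ ^ a * (χ₀ ^ (t r))⁻¹) ?_ ?_ ?_ ?_
      · intro a ha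
        simp only [mem_filter, mem_range] at ha
        rw [hCg]
        refine ⟨?_, ?_⟩
        · exact Subgroup.mul_mem _ (Subgroup.npow_mem_zpowers χ₀ a)
            (Subgroup.inv_mem _ (Subgroup.npow_mem_zpowers χ₀ (t r)))
        · rw [mul_pow, inv_pow, ← pow_mul, ← pow_mul, mul_inv_eq_one, pow_eq_pow_iff_modEq, ← hd,
            he]
          have h3 : a ≡ t r [MOD r * M] := by
            rw [← Nat.modEq_and_modEq_iff_modEq_mul hrM]
            refine ⟨?_, ?_⟩
            · exact ((Nat.modEq_zero_iff_dvd.2 ha.2)).trans ht0.symm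
            · have h4 : a ≡ 1 [MOD M] := ha.1.2
              exact h4.trans ht1.symm
          exact Nat.ModEq.mul_right' e h3
      · intro a ha b hb hab
        simp only [mem_filter, mem_range] at ha hb
        exact hinj a b ha.1.1 hb.1.1 (mul_right_cancel hab)
      · intro ψ hψ
        rw [hCg, ← mem_powers_iff_mem_zpowers] at hψ
        obtain ⟨⟨j, rfl⟩, hj⟩ := hψ
        simp only at hj ⊢
        have h3 : r * M ∣ j := by
          have h4 : d ∣ j * e := by
            rw [hd]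
            refine orderOf_dvd_of_pow_eq_one ?_
            rw [pow_mul]
            exact hj
          rw [he] at h4
          have he0 : 0 < e := by
            rcases Nat.eq_zero_or_pos e with h5 | h5
            · rw [h5, mul_zero] at he
              omega
            · exact h5
          exact Nat.dvd_of_mul_dvd_mul_right he0 h4
        have hrj : r ∣ j := (Dvd.intro _ rfl).trans h3
        have hMj : M ∣ j := (Dvd.intro_left _ rfl).trans h3
        refine ⟨(t r + j) % d, ?_, ?_⟩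
        · simp only [mem_filter, mem_range]
          refine ⟨⟨Nat.mod_lt _ hd0, ?_⟩, ?_⟩
          · rw [Nat.mod_mod_of_dvd _ hMd]
            have h4 : t r + j ≡ 1 + 0 [MOD M] := ht1.add (Nat.modEq_zero_iff_dvd.2 hMj)
            exact h4
          · rw [Nat.dvd_mod_iff hrd]
            exact dvd_add (Nat.modEq_zero_iff_dvd.1 ht0) hrj
        · rw [hd, pow_mod_orderOf, pow_add, mul_comm (χ₀ ^ t r), mul_inv_cancel_right]
      · intro a _
        rw [mul_comm (χ₀ ^ t r), inv_mul_cancel_right]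
    · rw [if_neg hrM]
      have h3 : ∀ a ∈ (range d).filter (fun a => a % M = 1 % M),
          (if r ∣ a then g (χ₀ ^ a) else 0) = 0 := by
        intro a ha
        rw [if_neg]
        intro hra
        apply hrM
        simp only [mem_filter, mem_range] at ha
        have h4 : a ≡ 1 [MOD M] := ha.2
        have h5 : a ≡ 1 [MOD Nat.gcd r M] := h4.of_dvd (Nat.gcd_dvd_right r M)
        have h6 : a ≡ 0 [MOD Nat.gcd r M] :=
          Nat.modEq_zero_iff_dvd.2 ((Nat.gcd_dvd_left r M).trans hra)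
        exact Nat.dvd_one.1 (Nat.modEq_zero_iff_dvd.1 (h5.symm.trans h6))
      rw [sum_eq_zero h3, mul_zero]

end Pool.Agent.W636.CM
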